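import Mathlib
import Pool.Agent.H458.Sp.FCAll

/-!
# Roots of polynomials with large gaps and small coefficients are small

The proof is the one of `root_bound_gen` of the starting library.
-/

set_option autoImplicit false

namespace Pool.Agent.P8H51.UB

open Finset Polynomial Pool.Agent.H458.Sp

variable {r : ℕ}

/-- roots of polynomials with large gaps and small coefficients are small, general form -/
theorem root_bound_t (β : ℕ) (hβ : 2 ≤ β) (m l : Fin r → ℕ) (c : Fin r → ℤ) (f g : ℕ)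
    (hf : ∀ j, m j ≤ f) (B : ℕ) (hc : ∀ j, |c j| ≤ B)
    (τ : ℝ) (hτ : 1 ≤ τ) (hlt : (r : ℝ) * B * (β : ℝ) ^ f < τ ^ g)
    (hgap : ∀ i j, l i < l j → l i + g ≤ l j)
    (h0 : sub (β : ℤ) m l (li c) ≠ 0) (ρ : ℂ) (hρ : aeval ρ (sub (β : ℤ) m l (li c)) = 0) :
    ‖ρ‖ < τ := by
  classical
  set P := sub (β : ℤ) m l (li c) with hP
  by_contra hcon
  push Not at hcon
  have hβ' : (2 : ℝ) ≤ β := by exact_mod_cast hβ
  have hρ3 : 1 ≤ ‖ρ‖ := by linarith
  have hρ0 : 0 < ‖ρ‖ := by linarith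
  set W := P.natDegree with hW
  -- coefficients
  have hcoef : ∀ w, P.coeff w = ∑ j ∈ univ.filter (fun j => w = l j), c j * (β : ℤ) ^ (m j) := by
    intro w
    rw [hP, sub_li, finsetSum_coeff]
    simp_rw [coeff_C_mul_X_pow]
    rw [← Finset.sum_filter]
  have hexists : ∀ w, P.coeff w ≠ 0 → ∃ j, l j = w := by
    intro w hw
    by_contra hno
    push Not at hno
    apply hw
    rw [hcoef, Finset.filter_false_of_mem (fun j _ => (hno j).symm), Finset.sum_empty]
  have hWc : P.coeff W ≠ 0 := by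
    rw [hW]
    simpa using h0
  obtain ⟨j0, hj0⟩ := hexists W hWc
  -- the key inequality for the lower coefficients
  have hlow : ∀ w ∈ Finset.range W, |(P.coeff w : ℝ)| * ‖ρ‖ ^ w * ‖ρ‖ ^ g ≤
      |(P.coeff w : ℝ)| * ‖ρ‖ ^ W := by
    intro w hw
    rw [Finset.mem_range] at hw
    by_cases h : P.coeff w = 0
    · simp [h]
    · obtain ⟨j, hj⟩ := hexists w h
      have h1 := hgap j j0 (by omega)
      rw [mul_assoc, ← pow_add]
      refine mul_le_mul_of_nonneg_left ?_ (abs_nonneg _)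
      exact pow_le_pow_right₀ (by linarith) (by omega)
  have hsumc : ∑ w ∈ Finset.range W, |(P.coeff w : ℝ)| ≤ r * B * (β : ℝ) ^ f := by
    calc ∑ w ∈ Finset.range W, |(P.coeff w : ℝ)| ≤
        ∑ w ∈ Finset.range W, ∑ j ∈ univ.filter (fun j => w = l j), (B : ℝ) * (β : ℝ) ^ f := by
          refine Finset.sum_le_sum fun w _ => ?_
          rw [hcoef]
          push_cast
          refine (Finset.abs_sum_le_sum_abs _ _).trans (Finset.sum_le_sum fun j _ => ?_)
          rw [abs_mul, abs_of_nonneg (by positivity : (0 : ℝ) ≤ (β : ℝ) ^ (m j))]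
          have h1 : |(c j : ℝ)| ≤ B := by exact_mod_cast hc j
          have h2 : (β : ℝ) ^ (m j) ≤ (β : ℝ) ^ f := pow_le_pow_right₀ (by linarith) (hf j)
          exact mul_le_mul h1 h2 (by positivity) (by positivity)
      _ = ∑ w ∈ Finset.range W, ∑ j : Fin r, if w = l j then (B : ℝ) * (β : ℝ) ^ f else 0 := by
          refine Finset.sum_congr rfl fun w _ => ?_
          rw [Finset.sum_filter]
      _ = ∑ j : Fin r, ∑ w ∈ Finset.range W, if w = l j then (B : ℝ) * (β : ℝ) ^ f else 0 :=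
          Finset.sum_comm
      _ ≤ ∑ _j : Fin r, (B : ℝ) * (β : ℝ) ^ f := by
          refine Finset.sum_le_sum fun j _ => ?_
          rw [Finset.sum_ite_eq']
          split_ifs
          · exact le_rfl
          · positivity
      _ = r * B * (β : ℝ) ^ f := by
          rw [Finset.sum_const, Finset.card_univ, Fintype.card_fin, nsmul_eq_mul, mul_assoc]
  -- evaluate
  have hev : aeval ρ P = ∑ w ∈ Finset.range W, (P.coeff w : ℂ) * ρ ^ w +
      (P.coeff W : ℂ) * ρ ^ W := by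
    rw [aeval_eq_sum_range, ← hW, Finset.sum_range_succ]
    simp
  rw [hev] at hρ
  have h1 : ‖(P.coeff W : ℂ) * ρ ^ W‖ ≤ ∑ w ∈ Finset.range W, |(P.coeff w : ℝ)| * ‖ρ‖ ^ w := by
    have h2 : (P.coeff W : ℂ) * ρ ^ W = - ∑ w ∈ Finset.range W, (P.coeff w : ℂ) * ρ ^ w :=
      (neg_eq_of_add_eq_zero_right hρ).symm
    rw [h2, norm_neg]
    refine (norm_sum_le _ _).trans (Finset.sum_le_sum fun w _ => ?_)
    rw [norm_mul, norm_pow, Complex.norm_intCast]
  have h2 : ‖ρ‖ ^ W ≤ ‖(P.coeff W : ℂ) * ρ ^ W‖ := by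
    rw [norm_mul, norm_pow, Complex.norm_intCast]
    have h3 : (1 : ℝ) ≤ |(P.coeff W : ℝ)| := by
      have := Int.one_le_abs hWc
      exact_mod_cast this
    nlinarith [pow_pos hρ0 W]
  have h3 : ‖ρ‖ ^ g ≤ r * B * (β : ℝ) ^ f := by
    have h4 : ‖ρ‖ ^ g * ‖ρ‖ ^ W ≤ (r * B * (β : ℝ) ^ f) * ‖ρ‖ ^ W := by
      calc ‖ρ‖ ^ g * ‖ρ‖ ^ W ≤ ‖ρ‖ ^ g * ∑ w ∈ Finset.range W, |(P.coeff w : ℝ)| * ‖ρ‖ ^ w :=
            mul_le_mul_of_nonneg_left (h2.trans h1) (by positivity)
        _ = ∑ w ∈ Finset.range W, |(P.coeff w : ℝ)| * ‖ρ‖ ^ w * ‖ρ‖ ^ g := by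
            rw [Finset.mul_sum]
            exact Finset.sum_congr rfl fun w _ => by ring
        _ ≤ ∑ w ∈ Finset.range W, |(P.coeff w : ℝ)| * ‖ρ‖ ^ W := Finset.sum_le_sum hlow
        _ = (∑ w ∈ Finset.range W, |(P.coeff w : ℝ)|) * ‖ρ‖ ^ W := by rw [Finset.sum_mul]
        _ ≤ _ := mul_le_mul_of_nonneg_right hsumc (by positivity)
    exact le_of_mul_le_mul_right h4 (by positivity)
  have h5 : τ ^ g ≤ ‖ρ‖ ^ g := pow_le_pow_left₀ (by linarith) hcon _
  linarith



end Pool.Agent.P8H51.UB
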