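import Mathlib

/-!
# Project UB (row MP_4ffbf9_nt): `A X + B Y = C Z` in products of small spread, bases with few digits in any base

Statements of the packages. Here `E σ j` is the multiplicity of the factor `p σ + j` of the term `P σ`.
-/

set_option autoImplicit false

namespace Pool.Agent.P8H51.UB

open Polynomial

/-- the terms -/
noncomputable def PP {K : Type} [Field K] {D : ℕ} (E : Fin 3 → Fin (D + 1) → ℕ) (p : Fin 3 → K[X]) (σ : Fin 3) : K[X] :=
  ∏ j : Fin (D + 1), (p σ + C ((j : ℕ) : K)) ^ E σ j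

/-- **Package POLY** (150 lines, Mathlib only). Mason's inequality for products of small spread, with common factors.

Proof. Write `P σ = ∏_j (p σ + j)^(E σ j)`, `R σ = ∏_j (p σ + j)^(E σ j - 1)` (natural subtraction), `N σ` = number of `j` with
`E σ j ≥ 1`, so `N σ ≤ 1 + s σ` and `deg P σ = n σ deg p σ`, `deg R σ = deg P σ - N σ deg p σ` (shifting by a constant does not
change the degree if `deg p σ > 0`; if `deg p σ = 0` all are `0`). `W = P 0 * P 1' - P 0' * P 1`. By the relation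
`u 2 W = u 1 (P 2 P 0' - ...)` etc.: the three Wronskians of two of the `P σ` are nonzero constant multiples of each other.
`R σ` divides `P σ` and `P σ'`, so `R σ ∣ W`. The `R σ` are pairwise coprime: if `π` is irreducible and divides `R 0` and `R 1` then
it divides `p 0 + i` with `E 0 i ≥ 2`, `p 1 + j` with `E 1 j ≥ 2`, so `π ^ 2` divides `P 0`, `P 1`, so `π` is a unit by the last
hypothesis; if `π ^ 2` divides `P 0` and `P 2` it divides `P 1` by the relation. So `R 0 * R 1 * R 2 ∣ W`.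
If `W ≠ 0`: for all `σ ≠ σ'`, `∑ deg R ≤ deg W ≤ deg P σ + deg P σ' - 1` (for `σ ≠ σ'`), so with the two smallest degrees
`max deg P + 1 ≤ ∑ N σ deg p σ ≤ ∑ (1 + s σ) deg p σ = ∑ ((1 + s σ) / n σ) deg P σ ≤ max deg P`, a contradiction.
If `W = 0`: `P 1 = c P 0` with a constant `c` (if `P Q' = P' Q`, `P, Q ≠ 0`, then `deg P = deg Q` by the leading coefficients in
characteristic `0`; apply this to `P` and to `Q - c P` with `c` the ratio of the leading coefficients), and `P 2 = c' P 0`. As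
`∑_j E σ j = n σ > 1 + s σ` some `E σ j ≥ 2`, so `(p σ + j)^2` divides `P σ`, so `P 0` and `P 1`, so `p σ + j` is a unit. -/
def S_POLY : Prop :=
  ∀ (K : Type) [Field K] [CharZero K] (D : ℕ) (E : Fin 3 → Fin (D + 1) → ℕ) (n s : Fin 3 → ℕ)
    (u : Fin 3 → K) (p : Fin 3 → K[X]), (∀ σ, u σ ≠ 0) → (∀ σ, ∑ j, E σ j = n σ) →
    (∀ σ (j : Fin (D + 1)), s σ < (j : ℕ) → E σ j = 0) → (∀ σ, 1 + s σ < n σ) →
    ∑ σ, (1 + (s σ : ℝ)) / n σ ≤ 1 → (∀ σ, PP E p σ ≠ 0) → ∑ σ, C (u σ) * PP E p σ = 0 →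
    (∀ q : K[X], q ^ 2 ∣ PP E p 0 → q ^ 2 ∣ PP E p 1 → IsUnit q) →
    ∀ σ, (p σ).natDegree = 0

/-- **Package SQ** (80 lines, Mathlib only). From a common square over `ℚ` to one over `ℤ` (Gauss): take the primitive integral
polynomial `d` associated to `q` (`q ≠ 0` since `f ≠ 0`); `d ^ 2` is primitive. -/
def S_SQ : Prop :=
  ∀ (f g : ℤ[X]) (q : ℚ[X]), f ≠ 0 → q ^ 2 ∣ f.map (Int.castRingHom ℚ) →
    q ^ 2 ∣ g.map (Int.castRingHom ℚ) → ¬ IsUnit q →
    ∃ d : ℤ[X], 0 < d.natDegree ∧ d ^ 2 ∣ f ∧ d ^ 2 ∣ g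

/-- **Package VAL** (40 lines, Mathlib only). The value of an integral polynomial whose roots are small. -/
def S_VAL : Prop :=
  ∀ (d : ℤ[X]) (β t : ℕ), 0 < d.natDegree → (∀ ρ : ℂ, aeval ρ d = 0 → ‖ρ‖ < (β : ℝ) - t) →
    (t : ℤ) < |d.eval (β : ℤ)| ∨ t = 0

end Pool.Agent.P8H51.UB
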