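import Mathlib
import Pool.Agent.P8H51.UB.Root
import Pool.Agent.P8H51.UB.Stm
import Pool.Agent.P8H51.SB.Ineq

/-!
# The core: from a polynomial identity to bounded bases
-/

set_option autoImplicit false

namespace Pool.Agent.P8H51.UB

open Finset Pool.Agent.H458.Sp Pool.Agent.P8H51.SB

theorem core (hPOLY : S_POLY) (hSQ : S_SQ) (hVAL : S_VAL) {D : ℕ} {E : Fin 3 → Fin (D + 1) → ℕ}
    {x n s W : Fin 3 → ℕ} {A B C : ℕ} {Q : ℝ} (hA : 0 < A) (hB : 0 < B) (hC : 0 < C)
    (h : Sol A B C 1 Q D E x n s W) (r β : ℕ) (e m l : Fin r → ℕ)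
    (c : Fin 3 → Fin (D + 1) → Fin r → ℤ) (B' f g t : ℕ) (hβ : 2 ≤ β)
    (hml : ∀ j, m j + l j = e j) (hm : ∀ j, m j ≤ f) (hc : ∀ σ j i, |c σ j i| ≤ B')
    (hrep : ∀ σ (j : Fin (D + 1)), ((x σ + (j : ℕ) : ℕ) : ℤ) = ∑ i, c σ j i * (β : ℤ) ^ (e i))
    (hshift : ∀ σ (j : Fin (D + 1)), sub (β : ℤ) m l (li (c σ j)) =
      sub (β : ℤ) m l (li (c σ 0)) + Polynomial.C (((j : ℕ) : ℕ) : ℤ))
    (hgap : ∀ i j, l i < l j → l i + g ≤ l j) (ht : Q ≤ t) (htβ : t + 1 ≤ β)
    (hlt : (r : ℝ) * B' * (β : ℝ) ^ f < ((β : ℝ) - t) ^ g)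
    (hvan : sub (β : ℤ) m l (∑ σ, MvPolynomial.C (wt A B C σ) *
      ∏ j : Fin (D + 1), li (c σ j) ^ E σ j) = 0) :
    ∀ σ, (x σ : ℤ) ≤ r * B' * β ^ f := by
  classical
  obtain ⟨P, hP⟩ : ∃ P : Fin 3 → Polynomial ℤ, P = fun σ => sub (β : ℤ) m l (li (c σ 0)) :=
    ⟨_, rfl⟩
  obtain ⟨Φ, hΦ⟩ : ∃ Φ : Fin 3 → Polynomial ℤ, Φ = fun σ =>
      ∏ j : Fin (D + 1), (P σ + Polynomial.C ((j : ℕ) : ℤ)) ^ E σ j := ⟨_, rfl⟩
  have hsubj : ∀ σ (j : Fin (D + 1)), sub (β : ℤ) m l (li (c σ j)) =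
      P σ + Polynomial.C ((j : ℕ) : ℤ) := by
    intro σ j
    rw [hshift, hP]
  have hevj : ∀ σ (j : Fin (D + 1)), (P σ + Polynomial.C ((j : ℕ) : ℤ)).eval (β : ℤ) =
      ((x σ + (j : ℕ) : ℕ) : ℤ) := by
    intro σ j
    rw [← hsubj, sub_eval]
    simp only [hml]
    rw [eval_li, hrep]
    exact Finset.sum_congr rfl fun i _ => mul_comm _ _
  have hxj : ∀ σ (j : Fin (D + 1)), ((x σ + (j : ℕ) : ℕ) : ℤ) ≠ 0 := by
    intro σ j
    have := h.bpos σ
    have h1 : x σ + (j : ℕ) ≠ 0 := by omega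
    exact_mod_cast h1
  have hPj0 : ∀ σ (j : Fin (D + 1)), P σ + Polynomial.C ((j : ℕ) : ℤ) ≠ 0 := by
    intro σ j h0
    apply hxj σ j
    rw [← hevj, h0, Polynomial.eval_zero]
  have hΦ0 : ∀ σ, Φ σ ≠ 0 := by
    intro σ
    rw [hΦ]
    exact Finset.prod_ne_zero_iff.2 fun j _ => pow_ne_zero _ (hPj0 σ j)
  have hΦev : ∀ σ, (Φ σ).eval (β : ℤ) = (W σ : ℤ) := by
    intro σ
    rw [hΦ]
    simp only
    rw [Polynomial.eval_prod, h.prod σ]
    push_cast
    refine Finset.prod_congr rfl fun j _ => ?_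
    rw [Polynomial.eval_pow, hevj]
    push_cast
    rfl
  have hrelΦ : ∑ σ, Polynomial.C (wt A B C σ) * Φ σ = 0 := by
    rw [← hvan, map_sum]
    refine Finset.sum_congr rfl fun σ _ => ?_
    rw [map_mul, map_prod, hΦ]
    have hCC : ∀ a : ℤ, sub (β : ℤ) m l (MvPolynomial.C a) = Polynomial.C a := by
      intro a
      unfold sub
      rw [MvPolynomial.aeval_C]
      rfl
    rw [hCC]
    congr 1
    refine Finset.prod_congr rfl fun j _ => ?_
    rw [map_pow, hsubj]
  have hinj : Function.Injective (Int.castRingHom ℚ) := Int.cast_injective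
  have hmap : ∀ σ, PP E (fun σ => (P σ).map (Int.castRingHom ℚ)) σ =
      (Φ σ).map (Int.castRingHom ℚ) := by
    intro σ
    rw [PP, hΦ]
    simp only
    rw [Polynomial.map_prod]
    refine Finset.prod_congr rfl fun j _ => ?_
    rw [Polynomial.map_pow, Polynomial.map_add, Polynomial.map_C]
    simp
  have hwt0 : ∀ σ, wt A B C σ ≠ 0 := by
    intro σ
    fin_cases σ
    · show (A : ℤ) ≠ 0
      exact_mod_cast hA.ne'
    · show (B : ℤ) ≠ 0
      exact_mod_cast hB.ne'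
    · show (-(C : ℤ)) ≠ 0
      exact neg_ne_zero.2 (by exact_mod_cast hC.ne')
  obtain ⟨q, hq1, _, hq3, hq4⟩ := h.gcd_rep
  have hdeg := hPOLY ℚ D E n s (fun σ => (wt A B C σ : ℚ))
    (fun σ => (P σ).map (Int.castRingHom ℚ)) (fun σ => by exact_mod_cast hwt0 σ) h.sum h.zero h.slt
    h.deg (fun σ => by
      rw [hmap, Ne, Polynomial.map_eq_zero_iff hinj]
      exact hΦ0 σ)
    (by
      have h1 := congrArg (Polynomial.map (Int.castRingHom ℚ)) hrelΦ
      rw [Polynomial.map_sum, Polynomial.map_zero] at h1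
      rw [← h1]
      refine Finset.sum_congr rfl fun σ _ => ?_
      rw [hmap, Polynomial.map_mul, Polynomial.map_C]
      rfl)
    (by
      intro p hp0 hp1
      by_contra hu
      rw [hmap] at hp0 hp1
      obtain ⟨d, hd, hd0, hd1⟩ := hSQ (Φ 0) (Φ 1) p (hΦ0 0) hp0 hp1 hu
      have hroot : ∀ ρ : ℂ, Polynomial.aeval ρ d = 0 → ‖ρ‖ < (β : ℝ) - t := by
        intro ρ hρ
        have h1 : Polynomial.aeval ρ (Φ 0) = 0 := by
          obtain ⟨k, hk⟩ := hd0
          rw [hk, map_mul, map_pow, hρ]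
          simp
        rw [hΦ] at h1
        simp only at h1
        rw [map_prod, Finset.prod_eq_zero_iff] at h1
        obtain ⟨j, _, hj⟩ := h1
        rw [map_pow] at hj
        have hE0 : E 0 j ≠ 0 := by
          intro h2
          rw [h2, pow_zero] at hj
          exact one_ne_zero hj
        have hj' := (pow_eq_zero_iff hE0).1 hj
        refine root_bound_t β hβ m l (c 0 j) f g hm B' (hc 0 j) _ ?_ hlt hgap ?_ ρ ?_
        · have : ((t + 1 : ℕ) : ℝ) ≤ β := by exact_mod_cast htβ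
          push_cast at this
          linarith
        · rw [hsubj]
          exact hPj0 0 j
        · rw [hsubj]
          exact hj'
      have h1 : ((d.eval (β : ℤ)).natAbs) ^ 2 ∣ q * ∏ p ∈ (Nat.gcd (W 0) (W 1)).primeFactors, p := by
        rw [← hq1]
        have h2 : ∀ i, d ^ 2 ∣ Φ i → (d.eval (β : ℤ)).natAbs ^ 2 ∣ W i := by
          intro i hi
          have h3 := Polynomial.eval_dvd (x := (β : ℤ)) hi
          rw [Polynomial.eval_pow, hΦev] at h3
          have h4 := Int.natAbs_dvd_natAbs.2 h3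
          rwa [Int.natAbs_pow, Int.natAbs_natCast] at h4
        exact Nat.dvd_gcd (h2 0 hd0) (h2 1 hd1)
      have hsq : Squarefree (∏ p ∈ (Nat.gcd (W 0) (W 1)).primeFactors, p) := by
        rw [← Nat.radical_eq_prod_primeFactors]
        exact UniqueFactorizationMonoid.squarefree_radical
      have hdne : (d.eval (β : ℤ)).natAbs ≠ 0 := by
        intro h0
        rw [h0] at h1
        have h2 : q * ∏ p ∈ (Nat.gcd (W 0) (W 1)).primeFactors, p = 0 := by
          simpa using h1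
        rw [← hq1] at h2
        exact Nat.gcd_ne_zero_left (h.Wpos 0).ne' h2
      have h2 := Nat.le_of_dvd hq3 (dvd_of_sq_dvd _ _ _ hdne hsq h1)
      have h3 : (q : ℝ) ≤ t := hq4.trans ht
      have h4 : q ≤ t := by exact_mod_cast h3
      rcases hVAL d β t hd hroot with h5 | h5
      · rw [Int.abs_eq_natAbs] at h5
        have h6 : t < (d.eval (β : ℤ)).natAbs := by exact_mod_cast h5
        omega
      · omega)
  intro σ
  have h1 : (P σ).natDegree = 0 := by
    have := hdeg σ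
    simpa [Polynomial.natDegree_map_eq_of_injective hinj] using this
  have h2 := le_sub_natDegree β hβ m l (li (c σ 0)) f (fun α hα => by
    have h2 := li_homog (c σ 0) (MvPolynomial.mem_support_iff.1 hα)
    rw [Finsupp.weight_apply, Finsupp.sum_fintype _ _ (by simp)] at h2
    have h3 : ∑ j, α j = 1 := by simpa using h2
    have := exn_le m f hm α 1 h3.le
    rwa [one_mul] at this)
  have h3 : (sub (β : ℤ) m l (li (c σ 0))).natDegree = 0 := by
    have : P σ = sub (β : ℤ) m l (li (c σ 0)) := by rw [hP]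
    rw [← this]
    exact h1
  simp only [hml] at h2
  rw [h3, pow_zero, mul_one, eval_li] at h2
  have h4 : (x σ : ℤ) = ∑ i, (β : ℤ) ^ (e i) * c σ 0 i := by
    have h5 := hrep σ 0
    simp only [Fin.val_zero, add_zero] at h5
    rw [h5]
    exact Finset.sum_congr rfl fun i _ => mul_comm _ _
  rw [← h4] at h2
  refine (le_abs_self _).trans (h2.trans ?_)
  exact mul_le_mul_of_nonneg_right (li_nz _ _ (hc σ 0)) (by positivity)

end Pool.Agent.P8H51.UB
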