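import Mathlib
import Pool.Agent.P8H51.UB.Core

/-!
# Large and small bases
-/

set_option autoImplicit false

namespace Pool.Agent.P8H51.UB

open Finset Pool.Agent.H458.Sp Pool.Agent.P8H51.SB

/-- the digits of the factors -/
def dg {k : ℕ} (c₀ : Fin 3 → Fin k → ℤ) (D : ℕ) (σ : Fin 3) (j : Fin (D + 1)) : Fin (k + 1) → ℤ :=
  Fin.snoc (α := fun _ => ℤ) (c₀ σ) ((j : ℕ) : ℤ)

/-- the exponents -/
def ex {k : ℕ} (e₀ : Fin k → ℕ) : Fin (k + 1) → ℕ := Fin.snoc (α := fun _ => ℕ) e₀ 0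

theorem dg_le {k : ℕ} (c₀ : Fin 3 → Fin k → ℤ) (D B' : ℕ) (hc : ∀ σ i, |c₀ σ i| ≤ B')
    (hD : D ≤ B') (σ : Fin 3) (j : Fin (D + 1)) (i : Fin (k + 1)) : |dg c₀ D σ j i| ≤ B' := by
  refine Fin.lastCases ?_ (fun i => ?_) i
  · rw [dg, Fin.snoc_last, abs_of_nonneg (by positivity)]
    have := j.2
    exact_mod_cast (by omega : (j : ℕ) ≤ B')
  · rw [dg, Fin.snoc_castSucc]
    exact hc σ i

theorem dg_rep {k : ℕ} (c₀ : Fin 3 → Fin k → ℤ) (e₀ : Fin k → ℕ) (β D : ℕ) (x : Fin 3 → ℕ)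
    (hx : ∀ σ, (x σ : ℤ) = ∑ i, c₀ σ i * (β : ℤ) ^ (e₀ i)) (σ : Fin 3) (j : Fin (D + 1)) :
    ((x σ + (j : ℕ) : ℕ) : ℤ) = ∑ i, dg c₀ D σ j i * (β : ℤ) ^ (ex e₀ i) := by
  rw [Fin.sum_univ_castSucc]
  simp only [dg, ex, Fin.snoc_castSucc, Fin.snoc_last, pow_zero, mul_one]
  rw [← hx]
  push_cast
  rfl

theorem dg_shift {k : ℕ} (c₀ : Fin 3 → Fin k → ℤ) (e₀ : Fin k → ℕ) (β D : ℕ)
    (m l : Fin (k + 1) → ℕ) (hml : ∀ j, m j + l j = ex e₀ j) (σ : Fin 3) (j : Fin (D + 1)) :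
    sub (β : ℤ) m l (li (dg c₀ D σ j)) =
      sub (β : ℤ) m l (li (dg c₀ D σ 0)) + Polynomial.C (((j : ℕ) : ℕ) : ℤ) := by
  have h1 := hml (Fin.last k)
  rw [ex, Fin.snoc_last] at h1
  have h2 : m (Fin.last k) = 0 := by omega
  have h3 : l (Fin.last k) = 0 := by omega
  rw [sub_li, sub_li, Fin.sum_univ_castSucc, Fin.sum_univ_castSucc]
  simp only [dg, Fin.snoc_castSucc, Fin.snoc_last, h2, h3, pow_zero, mul_one]
  simp

section

variable {D : ℕ} {E : Fin 3 → Fin (D + 1) → ℕ} {x n s W : Fin 3 → ℕ} {A B C : ℕ} {Q : ℝ}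

/-- the polynomial of the equation -/
noncomputable def GE (A B C : ℕ) {D k : ℕ} (E : Fin 3 → Fin (D + 1) → ℕ)
    (c₀ : Fin 3 → Fin k → ℤ) : MvPolynomial (Fin (k + 1)) ℤ :=
  ∑ σ, MvPolynomial.C (wt A B C σ) * ∏ j : Fin (D + 1), li (dg c₀ D σ j) ^ E σ j

theorem GE_eval {k : ℕ} (h : Sol A B C 1 Q D E x n s W) (c₀ : Fin 3 → Fin k → ℤ)
    (e₀ : Fin k → ℕ) (β : ℕ) (hx : ∀ σ, (x σ : ℤ) = ∑ i, c₀ σ i * (β : ℤ) ^ (e₀ i)) :
    MvPolynomial.eval (fun j => (β : ℤ) ^ (ex e₀ j)) (GE A B C E c₀) = 0 := by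
  have h1 : ∀ σ, MvPolynomial.eval (fun j => (β : ℤ) ^ (ex e₀ j))
      (∏ j : Fin (D + 1), li (dg c₀ D σ j) ^ E σ j) = (W σ : ℤ) := by
    intro σ
    rw [map_prod, h.prod σ]
    push_cast
    refine Finset.prod_congr rfl fun j _ => ?_
    rw [map_pow, eval_li]
    congr 1
    have h2 := dg_rep c₀ e₀ β D x hx σ j
    push_cast at h2
    rw [h2]
    exact Finset.sum_congr rfl fun i _ => mul_comm _ _
  rw [GE, map_sum]
  simp only [map_mul, MvPolynomial.eval_C, h1]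
  rw [Fin.sum_univ_three]
  have h2 : ((A * W 0 + B * W 1 : ℕ) : ℤ) = ((C * W 2 : ℕ) : ℤ) := by rw [h.rel]
  push_cast at h2
  show (A : ℤ) * W 0 + (B : ℤ) * W 1 + -(C : ℤ) * W 2 = 0
  linarith

theorem nz_prod {τ ι : Type} (s : Finset ι) (f : ι → MvPolynomial τ ℤ) (N : ι → ℤ)
    (hf : ∀ i ∈ s, nz (f i) ≤ N i) : nz (∏ i ∈ s, f i) ≤ ∏ i ∈ s, N i := by
  classical
  induction s using Finset.induction_on with
  | empty => simpa using nz_one
  | insert a s ha ih =>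
    rw [Finset.prod_insert ha, Finset.prod_insert ha]
    have h1 := hf a (Finset.mem_insert_self _ _)
    have h2 := ih fun i hi => hf i (Finset.mem_insert_of_mem hi)
    exact (nz_mul _ _).trans (mul_le_mul h1 h2 (nz_nonneg _) ((nz_nonneg _).trans h1))

theorem GE_bound {k : ℕ} (h : Sol A B C 1 Q D E x n s W) (c₀ : Fin 3 → Fin k → ℤ) (B' : ℕ)
    (hc : ∀ σ i, |c₀ σ i| ≤ B') (hD : D ≤ B') :
    (∀ α ∈ (GE A B C E c₀).support, ∑ j, α j ≤ D) ∧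
    nz (GE A B C E c₀) ≤ (A + B + C : ℕ) * (((k + 1) * B' + 1 : ℕ) : ℤ) ^ D := by
  classical
  constructor
  · intro α hα
    rw [GE] at hα
    have h1 := MvPolynomial.support_sum hα
    rw [Finset.mem_biUnion] at h1
    obtain ⟨σ, _, h2⟩ := h1
    have h3 : (MvPolynomial.C (wt A B C σ) *
        ∏ j : Fin (D + 1), li (dg c₀ D σ j) ^ E σ j).IsHomogeneous (0 + ∑ j, 1 * E σ j) :=
      (MvPolynomial.isHomogeneous_C _ _).mul
        (MvPolynomial.IsHomogeneous.prod _ _ _ fun j _ => (li_homog _).pow _)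
    have h4 := h3 (MvPolynomial.mem_support_iff.1 h2)
    rw [Finsupp.weight_apply, Finsupp.sum_fintype _ _ (by simp)] at h4
    have h5 : ∑ j, α j = n σ := by simpa [h.sum] using h4
    rw [h5]
    exact h.nle σ
  · have h1 : ∀ σ, nz (MvPolynomial.C (wt A B C σ) *
        ∏ j : Fin (D + 1), li (dg c₀ D σ j) ^ E σ j) ≤
        |wt A B C σ| * (((k + 1) * B' + 1 : ℕ) : ℤ) ^ D := by
      intro σ
      have h2 : nz (MvPolynomial.C (wt A B C σ) : MvPolynomial (Fin (k + 1)) ℤ) ≤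
        |wt A B C σ| := nz_monomial 0 _
      have h3 : nz (∏ j : Fin (D + 1), li (dg c₀ D σ j) ^ E σ j) ≤
          ∏ j : Fin (D + 1), (((k + 1) * B' + 1 : ℕ) : ℤ) ^ E σ j := by
        refine nz_prod _ _ _ fun j _ => nz_pow _ _ ?_ _
        refine (li_nz _ (B' : ℤ) (fun i => dg_le c₀ D B' hc hD σ j i)).trans ?_
        push_cast
        linarith
      rw [Finset.prod_pow_eq_pow_sum, h.sum] at h3
      have h4 : (((k + 1) * B' + 1 : ℕ) : ℤ) ^ n σ ≤ (((k + 1) * B' + 1 : ℕ) : ℤ) ^ D :=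
        pow_le_pow_right₀ (by push_cast; nlinarith [Nat.zero_le ((k + 1) * B')]) (h.nle σ)
      exact (nz_mul _ _).trans (mul_le_mul h2 (h3.trans h4) (nz_nonneg _) (abs_nonneg _))
    rw [GE]
    refine (nz_sum _ _).trans ((Finset.sum_le_sum fun σ _ => h1 σ).trans_eq ?_)
    rw [← Finset.sum_mul, Fin.sum_univ_three]
    congr 1
    simp [wt]

/-- **large base** -/
theorem large (hPOLY : S_POLY) (hSQ : S_SQ) (hVAL : S_VAL) (hA : 0 < A) (hB : 0 < B) (hC : 0 < C)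
    (h : Sol A B C 1 Q D E x n s W) {k : ℕ} (c₀ : Fin 3 → Fin k → ℤ) (e₀ : Fin k → ℕ)
    (B' β t : ℕ) (hc : ∀ σ i, |c₀ σ i| ≤ B') (hD : D ≤ B')
    (hx : ∀ σ, (x σ : ℤ) = ∑ i, c₀ σ i * (β : ℤ) ^ (e₀ i)) (ht : Q ≤ t)
    (hβ : (A + B + C + t + 3) * ((k + 1) * B' + 1) ^ D ≤ β) :
    ∀ σ, x σ ≤ (k + 1) * B' := by
  have hD1 : 1 ≤ D := by
    have := h.slt 0
    have := h.nle 0
    omega
  have hp1 : (k + 1) * B' + 1 ≤ ((k + 1) * B' + 1) ^ D := by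
    calc (k + 1) * B' + 1 = ((k + 1) * B' + 1) ^ 1 := (pow_one _).symm
      _ ≤ _ := Nat.pow_le_pow_right (by omega) hD1
  have hβ2 : (A + B + C) * ((k + 1) * B' + 1) ^ D + ((k + 1) * B' + 1) + (t + 2) ≤ β := by
    refine le_trans ?_ hβ
    have h1 : (A + B + C + t + 3) * ((k + 1) * B' + 1) ^ D =
      (A + B + C) * ((k + 1) * B' + 1) ^ D + ((k + 1) * B' + 1) ^ D +
        (t + 2) * ((k + 1) * B' + 1) ^ D := by ring
    rw [h1]
    have h2 : t + 2 ≤ (t + 2) * ((k + 1) * B' + 1) ^ D := Nat.le_mul_of_pos_right _ (by positivity)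
    omega
  have hb := GE_bound h c₀ B' hc hD
  have h1 := core hPOLY hSQ hVAL hA hB hC h (k + 1) β (ex e₀) (fun _ => 0) (ex e₀)
    (dg c₀ D) B' 0 1 t (by omega) (fun j => by simp) (fun _ => le_rfl)
    (dg_le c₀ D B' hc hD) (dg_rep c₀ e₀ β D x hx)
    (dg_shift c₀ e₀ β D (fun _ => 0) (ex e₀) (fun j => by simp)) (fun i j hij => hij) ht
    (by omega) (by
      have h2 : (((k + 1) * B' + 1 + t : ℕ) : ℝ) ≤ (β : ℝ) := by
        have : (k + 1) * B' + 1 + t ≤ β := by omega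
        exact_mod_cast this
      push_cast at h2 ⊢
      linarith) (by
      refine sub_vanish_large β (by omega) (ex e₀) (GE A B C E c₀) ?_ (GE_eval h c₀ e₀ β hx)
      have h2 := hb.2
      have h3 : (((A + B + C) * ((k + 1) * B' + 1) ^ D + 1 : ℕ) : ℤ) ≤ (β : ℤ) := by
        have : (A + B + C) * ((k + 1) * B' + 1) ^ D + 1 ≤ β := by omega
        exact_mod_cast this
      push_cast at h2 h3 ⊢
      linarith)
  intro σ
  have h2 := h1 σ
  rw [pow_zero, mul_one] at h2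
  exact_mod_cast h2

/-- **small base** -/
theorem small (hPOLY : S_POLY) (hSQ : S_SQ) (hVAL : S_VAL) (hA : 0 < A) (hB : 0 < B) (hC : 0 < C)
    (h : Sol A B C 1 Q D E x n s W) {k : ℕ} (c₀ : Fin 3 → Fin k → ℤ) (e₀ : Fin k → ℕ)
    (B' β t : ℕ) (hc : ∀ σ i, |c₀ σ i| ≤ B') (hD : D ≤ B')
    (hx : ∀ σ, (x σ : ℤ) = ∑ i, c₀ σ i * (β : ℤ) ^ (e₀ i)) (ht : Q ≤ t)
    (hβ : 4 * (t + 1) ≤ β) :
    ∀ σ, x σ ≤ (k + 1) * B' * (β * ((A + B + C + 1) * ((k + 1) * B' + 1) ^ D)) ^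
      (8 * (4 * D) ^ (k + 1)) ^ ((k + 1) * (k + 1) + 1) := by
  classical
  have hD1 : 1 ≤ D := by
    have := h.slt 0
    have := h.nle 0
    omega
  have hp1 : (k + 1) * B' + 1 ≤ ((k + 1) * B' + 1) ^ D := by
    calc (k + 1) * B' + 1 = ((k + 1) * B' + 1) ^ 1 := (pow_one _).symm
      _ ≤ _ := Nat.pow_le_pow_right (by omega) hD1
  obtain ⟨S, hS⟩ : ∃ S : ℕ, S = (A + B + C + 1) * ((k + 1) * B' + 1) ^ D := ⟨_, rfl⟩
  have hS2 : (A + B + C) * ((k + 1) * B' + 1) ^ D + ((k + 1) * B' + 1) ≤ S := by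
    rw [hS]
    have h1 : (A + B + C + 1) * ((k + 1) * B' + 1) ^ D =
      (A + B + C) * ((k + 1) * B' + 1) ^ D + ((k + 1) * B' + 1) ^ D := by ring
    omega
  have hS3 : 2 ≤ S := by
    have h1 : 1 ≤ ((k + 1) * B' + 1) ^ D := by omega
    have h2 : A ≤ (A + B + C) * ((k + 1) * B' + 1) ^ D := by nlinarith
    omega
  have hβ2 : 2 ≤ β := by omega
  obtain ⟨L0, hL0def⟩ : ∃ L0 : ℕ, L0 = Nat.clog β S := ⟨_, rfl⟩
  have hL01 : 1 ≤ L0 := by
    rw [hL0def]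
    exact Nat.clog_pos (by omega) hS3
  have hSL0 : S ≤ β ^ L0 := by
    rw [hL0def]
    exact Nat.le_pow_clog (by omega) _
  have hLS : β ^ L0 ≤ β * S := by
    obtain ⟨L', hL'⟩ : ∃ L', L0 = L' + 1 := ⟨L0 - 1, by omega⟩
    have h1 : β ^ L' < S := by
      rw [← Nat.lt_clog_iff_pow_lt (by omega)]
      omega
    rw [hL', pow_succ, mul_comm]
    exact Nat.mul_le_mul_left _ h1.le
  obtain ⟨M, hM⟩ : ∃ M : ℕ, M = 8 * (4 * D) ^ (k + 1) := ⟨_, rfl⟩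
  have hK1 : 1 ≤ (4 * D) ^ (k + 1) := Nat.one_le_pow _ _ (by omega)
  have hM1 : 1 ≤ M := by omega
  obtain ⟨L, hL0L, hLM, hscale⟩ := exists_scale M L0 hM1 (ex e₀)
  have hL1 : 1 ≤ L := hL01.trans hL0L
  have hSL : S ≤ β ^ L := hSL0.trans (Nat.pow_le_pow_right (by omega) hL0L)
  obtain ⟨m, l, hml, hm, hclus, htr⟩ := transfer0 β hβ2 D hD1 L hL1 (ex e₀)
  obtain ⟨f, hf⟩ : ∃ f : ℕ, f = 2 * (4 * D) ^ (k + 1) * L := ⟨_, rfl⟩
  have hML : M * L = 4 * f := by rw [hM, hf]; ring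
  have hfL : 2 * L ≤ f := by
    rw [hf]
    nlinarith
  have hm' : ∀ j, m j ≤ f := fun j => by rw [hf]; exact hm j
  have hgap : ∀ i j, l i < l j → l i + 2 * (f + L) ≤ l j := by
    intro i j hij
    have h1 := hml i
    have h2 := hml j
    have h3 := hm' i
    have h4 := hm' j
    have hnc : ¬ (ex e₀ i < ex e₀ j + L ∧ ex e₀ j < ex e₀ i + L) := fun h => by
      have := hclus i j h.1 h.2
      omega
    rcases hscale i j with h5 | h5
    · rcases hscale j i with h6 | h6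
      · omega
      · rw [hML] at h6
        omega
    · rw [hML] at h5
      omega
  have hb := GE_bound h c₀ B' hc hD
  have h1 := core hPOLY hSQ hVAL hA hB hC h (k + 1) β (ex e₀) m l
    (dg c₀ D) B' f (2 * (f + L)) t hβ2 hml hm'
    (dg_le c₀ D B' hc hD) (dg_rep c₀ e₀ β D x hx)
    (dg_shift c₀ e₀ β D m l hml) hgap ht
    (by omega) (by
      have hβR : (4 : ℝ) * (t + 1) ≤ β := by exact_mod_cast hβ
      have ht0 : (0 : ℝ) ≤ t := Nat.cast_nonneg t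
      have h2 : (((k + 1 : ℕ)) : ℝ) * B' ≤ (β : ℝ) ^ L := by
        have h3 : (k + 1) * B' ≤ β ^ L := by omega
        exact_mod_cast h3
      have h3 : (β : ℝ) < ((β : ℝ) - t) ^ 2 := by nlinarith
      calc (((k + 1 : ℕ)) : ℝ) * B' * (β : ℝ) ^ f ≤ (β : ℝ) ^ L * (β : ℝ) ^ f :=
            mul_le_mul_of_nonneg_right h2 (by positivity)
        _ = (β : ℝ) ^ (f + L) := by rw [← pow_add, add_comm]
        _ < (((β : ℝ) - t) ^ 2) ^ (f + L) :=
            pow_lt_pow_left₀ h3 (by positivity) (by omega)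
        _ = _ := by rw [← pow_mul]) (by
      refine htr (GE A B C E c₀) hb.1 ?_ (GE_eval h c₀ e₀ β hx)
      have h2 := hb.2
      have h3 : (((A + B + C) * ((k + 1) * B' + 1) ^ D + 1 : ℕ) : ℤ) ≤ ((β ^ L : ℕ) : ℤ) := by
        have : (A + B + C) * ((k + 1) * B' + 1) ^ D + 1 ≤ β ^ L := by omega
        exact_mod_cast this
      push_cast at h2 h3 ⊢
      linarith)
  intro σ
  have h2 : x σ ≤ (k + 1) * B' * β ^ f := by
    have := h1 σ
    exact_mod_cast this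
  refine h2.trans (Nat.mul_le_mul_left _ ?_)
  have h3 : f ≤ L0 * M ^ ((k + 1) * (k + 1) + 1) := by
    calc f ≤ M * L := by omega
      _ ≤ M * (M ^ ((k + 1) * (k + 1)) * L0) := Nat.mul_le_mul_left _ hLM
      _ = L0 * M ^ ((k + 1) * (k + 1) + 1) := by ring
  calc β ^ f ≤ β ^ (L0 * M ^ ((k + 1) * (k + 1) + 1)) := Nat.pow_le_pow_right (by omega) h3
    _ = (β ^ L0) ^ M ^ ((k + 1) * (k + 1) + 1) := by rw [pow_mul]
    _ ≤ (β * S) ^ M ^ ((k + 1) * (k + 1) + 1) := Nat.pow_le_pow_left hLS _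
    _ = _ := by rw [hS, hM]

end

end Pool.Agent.P8H51.UB
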