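import Mathlib
import Pool.Agent.P8H51.UB.Stage
import Pool.Agent.P8H71.UB.Val
import Pool.Agent.P8H71.UB.Poly

/-!
# The bound for the bases

`base_bound` is uniform in all parameters.
-/

set_option autoImplicit false

namespace Pool.Agent.P8H51.UB

open Finset Pool.Agent.P8H51.SB

theorem log_le_nat (m : ℕ) : Real.log m ≤ m := by
  rcases Nat.eq_zero_or_pos m with h | h
  · simp [h]
  · have h1 : (0 : ℝ) < m := by exact_mod_cast h
    linarith [Real.log_le_sub_one_of_pos h1]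

theorem log_succ_le_nat (m : ℕ) : Real.log ((m : ℝ) + 1) ≤ m := by
  have h1 : (0 : ℝ) < (m : ℝ) + 1 := by positivity
  linarith [Real.log_le_sub_one_of_pos h1]

theorem base_bound {A B C : ℕ} (hA : 0 < A) (hB : 0 < B) (hC : 0 < C) {Q : ℝ} {k H t h D : ℕ}
    (T : ℝ) (ht : Q ≤ t) (hh : 4 * (t + 1) ≤ 2 ^ h) (hTk : (k : ℝ) + 1 ≤ T) (hTD : (D : ℝ) ≤ T)
    (hTH : Real.log ((H : ℝ) + 1) ≤ T) (hTa : Real.log ((A : ℝ) + B + C + t + 3) ≤ 2 * T)
    (hTh : (h : ℝ) ≤ 4 * T) {E : Fin 3 → Fin (D + 1) → ℕ} {x n s W : Fin 3 → ℕ}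
    (hsol : Sol A B C 1 Q D E x n s W) {b : ℕ} (c₀ : Fin 3 → Fin k → ℤ) (e₀ : Fin k → ℕ)
    (hb : 2 ≤ b) (hc : ∀ σ i, |c₀ σ i| ≤ H)
    (hx : ∀ σ, (x σ : ℤ) = ∑ i, c₀ σ i * (b : ℤ) ^ (e₀ i)) (σ : Fin 3) :
    Real.log (x σ) ≤ (32 * T) ^ ((k + 1) * ((k + 1) * (k + 1) + 1) + 4) := by
  obtain ⟨a, ha⟩ : ∃ a : ℕ, a = A + B + C := ⟨_, rfl⟩
  have hD1 : 1 ≤ D := by
    have := hsol.slt 0
    have := hsol.nle 0
    omega
  have hDR : (1 : ℝ) ≤ D := by exact_mod_cast hD1
  have hT1 : (1 : ℝ) ≤ T := hDR.trans hTD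
  have hT0 : (0 : ℝ) ≤ T := zero_le_one.trans hT1
  have hT12 : T ≤ T ^ 2 := by nlinarith
  have hT23 : T ^ 2 ≤ T ^ 3 := pow_le_pow_right₀ hT1 (by norm_num)
  have hT34 : T ^ 3 ≤ T ^ 4 := pow_le_pow_right₀ hT1 (by norm_num)
  have hx0 : (0 : ℝ) < x σ := by exact_mod_cast hsol.bpos σ
  have hh0 : 0 < h := by
    rcases Nat.eq_zero_or_pos h with h0 | h0
    · rw [h0] at hh
      omega
    · exact h0
  have haR : (a : ℝ) = A + B + C := by rw [ha]; push_cast; ring
  rw [← haR] at hTa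
  obtain ⟨B1, hB1⟩ : ∃ B1 : ℕ, B1 = H + D := ⟨_, rfl⟩
  have hB1pos : 1 ≤ B1 := by omega
  obtain ⟨SL, hSL⟩ : ∃ SL : ℕ, SL = (a + t + 3) * ((k + 1) * B1 + 1) ^ D := ⟨_, rfl⟩
  have hc1 : ∀ σ i, |c₀ σ i| ≤ B1 := fun σ i => (hc σ i).trans (by rw [hB1]; push_cast; linarith)
  -- log of `(k + 1) * B1 + 1`
  have hkB : Real.log (((k : ℝ) + 1) * B1 + 1) ≤ 3 * T := by
    have h1 : ((k : ℝ) + 1) * B1 + 1 ≤ ((k : ℝ) + 1) * (((H : ℝ) + 1) * ((D : ℝ) + 1)) := by
      rw [hB1]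
      push_cast
      have h2 : (0 : ℝ) ≤ (k : ℝ) * (H * D) := by positivity
      have h3 : (0 : ℝ) ≤ (H : ℝ) * D := by positivity
      have h4 : (0 : ℝ) ≤ (k : ℝ) := by positivity
      nlinarith
    refine (Real.log_le_log (by positivity) h1).trans ?_
    rw [Real.log_mul (by positivity) (by positivity),
      Real.log_mul (by positivity) (by positivity)]
    have h2 := log_succ_le_nat k
    have h3 := log_succ_le_nat D
    linarith
  have hlSL : Real.log SL ≤ 5 * T ^ 2 := by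
    rw [hSL]
    push_cast
    rw [Real.log_mul (by positivity) (by positivity), Real.log_pow]
    have h4 : (D : ℝ) * Real.log (((k : ℝ) + 1) * B1 + 1) ≤ T * (3 * T) :=
      mul_le_mul hTD hkB (Real.log_nonneg (by
        have : (0 : ℝ) ≤ ((k : ℝ) + 1) * B1 := by positivity
        linarith)) hT0
    nlinarith
  have hfin : ∀ y : ℝ, y ≤ 71 * T ^ 4 * (32 * T) ^ ((k + 1) * ((k + 1) * (k + 1) + 1)) →
      y ≤ (32 * T) ^ ((k + 1) * ((k + 1) * (k + 1) + 1) + 4) := by
    intro y hy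
    refine hy.trans ?_
    rw [pow_add (32 * T) _ 4, mul_comm]
    refine mul_le_mul_of_nonneg_left ?_ (by positivity)
    have : (0 : ℝ) ≤ T ^ 4 := by positivity
    nlinarith
  have hone : (1 : ℝ) ≤ (32 * T) ^ ((k + 1) * ((k + 1) * (k + 1) + 1)) :=
    one_le_pow₀ (by linarith)
  rcases Nat.lt_or_ge b SL with hbS | hbS
  swap
  · -- large base
    have h1 := large Pool.Agent.P8H71.UB.poly Pool.Agent.P8H71.UB.sq Pool.Agent.P8H71.UB.val
      hA hB hC hsol c₀ e₀ B1 b t hc1 (by omega) hx ht (by rw [← ha, ← hSL]; exact hbS) σ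
    apply hfin
    have h2 : Real.log (x σ) ≤ 3 * T := by
      refine (Real.log_le_log hx0 ?_).trans hkB
      have h3 : (x σ : ℝ) ≤ ((k : ℝ) + 1) * B1 := by exact_mod_cast h1
      linarith
    have h3 : (3 : ℝ) * T ≤ 71 * T ^ 4 := by nlinarith
    have h4 : (71 : ℝ) * T ^ 4 ≤
        71 * T ^ 4 * (32 * T) ^ ((k + 1) * ((k + 1) * (k + 1) + 1)) :=
      le_mul_of_one_le_right (by positivity) hone
    linarith
  · -- small base
    have hSL1 : 1 ≤ SL := by omega
    have hbh : 4 * (t + 1) ≤ b ^ h := hh.trans (Nat.pow_le_pow_left hb h)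
    obtain ⟨B2, hB2⟩ : ∃ B2 : ℕ, B2 = B1 * SL ^ h := ⟨_, rfl⟩
    have hSLh : 1 ≤ SL ^ h := Nat.one_le_pow _ _ hSL1
    have h1 := small Pool.Agent.P8H71.UB.poly Pool.Agent.P8H71.UB.sq Pool.Agent.P8H71.UB.val
      hA hB hC hsol (fun σ i => c₀ σ i * (b : ℤ) ^ (e₀ i % h))
      (fun i => e₀ i / h) B2 (b ^ h) t
      (by
        intro σ i
        rw [abs_mul, abs_of_nonneg (by positivity : (0 : ℤ) ≤ (b : ℤ) ^ (e₀ i % h)), hB2]
        have h2 : b ^ (e₀ i % h) ≤ SL ^ h :=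
          (Nat.pow_le_pow_right (by omega) (Nat.mod_lt _ hh0).le).trans
            (Nat.pow_le_pow_left hbS.le _)
        have h3 : ((b : ℤ)) ^ (e₀ i % h) ≤ ((SL ^ h : ℕ) : ℤ) := by exact_mod_cast h2
        push_cast at h3 ⊢
        exact mul_le_mul (hc1 σ i) h3 (by positivity) (by positivity))
      (by
        rw [hB2]
        calc D ≤ B1 * 1 := by omega
          _ ≤ B1 * SL ^ h := Nat.mul_le_mul_left _ hSLh)
      (by
        intro σ
        rw [hx σ]
        refine Finset.sum_congr rfl fun i _ => ?_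
        push_cast
        rw [← pow_mul, mul_assoc, ← pow_add]
        congr 2
        have := Nat.mod_add_div (e₀ i) h
        omega) ht hbh σ
    rw [← ha] at h1
    -- sizes
    have hB2pos : 1 ≤ B2 := by
      rw [hB2]
      exact Nat.mul_pos hB1pos hSLh
    have hlSL0 : 0 ≤ Real.log SL := Real.log_nonneg (by exact_mod_cast hSL1)
    have hhSL : (h : ℝ) * Real.log SL ≤ 20 * T ^ 3 := by
      calc (h : ℝ) * Real.log SL ≤ (4 * T) * (5 * T ^ 2) :=
            mul_le_mul hTh hlSL hlSL0 (by positivity)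
        _ = _ := by ring
    have hlB2 : Real.log B2 ≤ 23 * T ^ 3 := by
      rw [hB2]
      push_cast
      have hB1R : (0 : ℝ) < B1 := by exact_mod_cast hB1pos
      rw [Real.log_mul (by positivity) (by
        have : (0 : ℝ) < SL := by exact_mod_cast hSL1
        positivity), Real.log_pow]
      have h2 : Real.log B1 ≤ 3 * T := by
        refine (Real.log_le_log hB1R ?_).trans hkB
        nlinarith [Nat.cast_nonneg (α := ℝ) k]
      linarith
    have hlkB2 : Real.log (((k : ℝ) + 1) * B2 + 1) ≤ 24 * T ^ 3 := by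
      have hB2R : (1 : ℝ) ≤ B2 := by exact_mod_cast hB2pos
      have h2 : ((k : ℝ) + 1) * B2 + 1 ≤ (((k + 1 : ℕ) : ℝ) + 1) * B2 := by
        push_cast
        nlinarith
      calc Real.log (((k : ℝ) + 1) * B2 + 1) ≤ Real.log ((((k + 1 : ℕ) : ℝ) + 1) * B2) :=
            Real.log_le_log (by positivity) h2
        _ = Real.log (((k + 1 : ℕ) : ℝ) + 1) + Real.log B2 :=
            Real.log_mul (by positivity) (by positivity)
        _ ≤ T + 23 * T ^ 3 := by
            refine add_le_add ((log_succ_le_nat (k + 1)).trans ?_) hlB2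
            push_cast
            exact hTk
        _ ≤ _ := by linarith
    have hlS : Real.log (((a : ℝ) + 1) * (((k : ℝ) + 1) * B2 + 1) ^ D) ≤ 26 * T ^ 4 := by
      rw [Real.log_mul (by positivity) (by positivity), Real.log_pow]
      have h2 : Real.log ((a : ℝ) + 1) ≤ 2 * T := by
        refine (Real.log_le_log (by positivity) ?_).trans hTa
        have : (0 : ℝ) ≤ t := by positivity
        linarith
      have h3 : (D : ℝ) * Real.log (((k : ℝ) + 1) * B2 + 1) ≤ T * (24 * T ^ 3) :=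
        mul_le_mul hTD hlkB2 (Real.log_nonneg (by
          have : (0 : ℝ) ≤ ((k : ℝ) + 1) * B2 := by positivity
          linarith)) hT0
      have h4 : T * (24 * T ^ 3) = 24 * T ^ 4 := by ring
      linarith
    have hlβ : Real.log ((b : ℝ) ^ h) ≤ 20 * T ^ 3 := by
      rw [Real.log_pow]
      have h2 : Real.log b ≤ Real.log SL := by
        refine Real.log_le_log ?_ (by exact_mod_cast hbS.le)
        exact_mod_cast (by omega : 0 < b)
      exact (mul_le_mul_of_nonneg_left h2 (by positivity)).trans hhSL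
    -- the bound
    obtain ⟨NN, hNN⟩ : ∃ NN : ℕ, NN = (8 * (4 * D) ^ (k + 1)) ^ ((k + 1) * (k + 1) + 1) := ⟨_, rfl⟩
    have hNNR : (NN : ℝ) ≤ (32 * T) ^ ((k + 1) * ((k + 1) * (k + 1) + 1)) := by
      rw [hNN, pow_mul (32 * T)]
      push_cast
      refine pow_le_pow_left₀ (by positivity) ?_ _
      calc (8 : ℝ) * (4 * (D : ℝ)) ^ (k + 1) ≤ 8 ^ (k + 1) * (4 * (D : ℝ)) ^ (k + 1) := by
            refine mul_le_mul_of_nonneg_right ?_ (by positivity)
            calc (8 : ℝ) = 8 ^ 1 := (pow_one _).symm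
              _ ≤ 8 ^ (k + 1) := pow_le_pow_right₀ (by norm_num) (by omega)
        _ = (32 * (D : ℝ)) ^ (k + 1) := by rw [← mul_pow]; ring
        _ ≤ _ := pow_le_pow_left₀ (by positivity) (by linarith) _
    rw [← hNN] at h1
    have h2 : (x σ : ℝ) ≤ ((k : ℝ) + 1) * B2 *
        ((b : ℝ) ^ h * (((a : ℝ) + 1) * (((k : ℝ) + 1) * B2 + 1) ^ D)) ^ NN := by
      exact_mod_cast h1
    have hbR : (0 : ℝ) < b := by exact_mod_cast (by omega : 0 < b)
    have hB2R : (0 : ℝ) < B2 := by exact_mod_cast hB2pos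
    have h3 : Real.log (x σ) ≤ Real.log (((k : ℝ) + 1) * B2) +
        NN * (Real.log ((b : ℝ) ^ h) +
          Real.log (((a : ℝ) + 1) * (((k : ℝ) + 1) * B2 + 1) ^ D)) := by
      refine (Real.log_le_log hx0 h2).trans_eq ?_
      rw [Real.log_mul (by positivity) (by positivity), Real.log_pow,
        Real.log_mul (x := (b : ℝ) ^ h) (by positivity) (by positivity)]
    have h4 : Real.log (((k : ℝ) + 1) * B2) ≤ 24 * T ^ 3 :=
      (Real.log_le_log (by positivity) (by linarith)).trans hlkB2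
    have h5 : (NN : ℝ) * (Real.log ((b : ℝ) ^ h) +
          Real.log (((a : ℝ) + 1) * (((k : ℝ) + 1) * B2 + 1) ^ D)) ≤
        NN * (46 * T ^ 4) :=
      mul_le_mul_of_nonneg_left (by linarith) (by positivity)
    have h6 : (NN : ℝ) * (46 * T ^ 4) ≤
        (32 * T) ^ ((k + 1) * ((k + 1) * (k + 1) + 1)) * (46 * T ^ 4) :=
      mul_le_mul_of_nonneg_right hNNR (by positivity)
    apply hfin
    have h7 : (24 : ℝ) * T ^ 3 ≤
        24 * T ^ 4 * (32 * T) ^ ((k + 1) * ((k + 1) * (k + 1) + 1)) := by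
      have h8 : (24 : ℝ) * T ^ 4 ≤
          24 * T ^ 4 * (32 * T) ^ ((k + 1) * ((k + 1) * (k + 1) + 1)) :=
        le_mul_of_one_le_right (by positivity) hone
      linarith
    have h8 : (0 : ℝ) ≤ T ^ 4 * (32 * T) ^ ((k + 1) * ((k + 1) * (k + 1) + 1)) := by positivity
    nlinarith

end Pool.Agent.P8H51.UB
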